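import Pool.Agent.H84.SL.Targets
import Pool.Agent.H21.SM.BRX
import Pool.Agent.H3.OD.Asm

/-!
# Row EMB of the board `slg_modules`: the trace in the Hahn series at the zeros of `u`
-/

set_option autoImplicit false

namespace Pool.Agent.H85.SL

open MvPolynomial SC Pool.Agent.H27.LV Pool.Agent.H84.SM Pool.Agent.H84.SL
open Pool.Agent.H92.OD (HS cf sg uu Lat geO IsO DF cf_sum cf_sg algebraMap_HS hs_ext)

section

variable {k K : Type} [Field k] [IsAlgClosed k] [CharZero k] [Field K] [Algebra k K]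

omit [IsAlgClosed k] [CharZero k] in
/-- two homomorphisms which agree at `u` agree on `k(u)` -/
theorem agree {L : Type} [Field L] [Algebra k L] (f g : K →ₐ[k] L) {u : K} (h : f u = g u) :
    ∀ x ∈ IntermediateField.adjoin k {u}, f x = g x := by
  intro x hx
  induction hx using IntermediateField.adjoin_induction with
  | mem w hw => rw [Set.mem_singleton_iff.1 hw, h]
  | algebraMap c => rw [f.commutes, g.commutes]
  | add w w' _ _ h1 h2 => rw [map_add, map_add, h1, h2]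
  | mul w w' _ _ h1 h2 => rw [map_mul, map_mul, h1, h2]
  | inv w _ h1 => rw [map_inv₀, map_inv₀, h1]

/-- the number of zeros of `u` -/
theorem zeros [Algebra.EssFiniteType k K] (htr : Algebra.trdeg k K = 1) {u : K}
    (hu : Transcendental k u) : ∃ V : Finset (DV k K), (∀ v, v ∈ V ↔ 0 < v.ord u) ∧
    ∑ v ∈ V, (v.ord u).toNat = Module.finrank (IntermediateField.adjoin k {u}) K := by
  obtain ⟨s, hs⟩ : ∃ s, s = u⁻¹ := ⟨_, rfl⟩
  have hst : Transcendental k s := by
    rw [hs]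
    intro h
    exact hu (by simpa using h.inv)
  have hFs : IntermediateField.adjoin k {u} = IntermediateField.adjoin k {s} := by
    apply le_antisymm
    · rw [IntermediateField.adjoin_le_iff, Set.singleton_subset_iff]
      have h1 : u = s⁻¹ := by rw [hs, inv_inv]
      have h2 := inv_mem (IntermediateField.mem_adjoin_simple_self k s)
      rw [← h1] at h2
      exact h2
    · rw [IntermediateField.adjoin_le_iff, Set.singleton_subset_iff]
      rw [hs]
      exact inv_mem (IntermediateField.mem_adjoin_simple_self k u)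
  have hu0 : u ≠ 0 := by
    rintro rfl
    exact hu isAlgebraic_zero
  have hfd := Pool.Agent.H36.SC.fin_of_transc htr hst
  obtain ⟨h1, -, h3⟩ := Pool.Agent.H76.KN.v5 k K s hst hfd
  have hord : ∀ v : DV k K, v.ord s = -(v.ord u) := by
    intro v
    rw [hs]
    have h4 := v.ord_mul' hu0 (inv_ne_zero hu0)
    rw [mul_inv_cancel₀ hu0, v.ord_one] at h4
    omega
  refine ⟨h1.toFinset, fun v => ?_, ?_⟩
  · rw [h1.mem_toFinset, Set.mem_ofPred_eq, hord]
    omega
  · rw [hFs]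
    have h5 : ∑ᶠ v : DV k K, (v.deg : ℤ) * max 0 (- v.ord s) =
        ∑ v ∈ h1.toFinset, ((v.ord u).toNat : ℤ) := by
      rw [finsum_eq_sum_of_support_subset (s := h1.toFinset)]
      · refine Finset.sum_congr rfl fun v hv => ?_
        rw [(rat k K htr v).1, hord, neg_neg, Nat.cast_one, one_mul, Int.toNat_eq_max, max_comm]
      · intro v hv
        rw [Function.mem_support] at hv
        rw [Finset.mem_coe, h1.mem_toFinset, Set.mem_ofPred_eq]
        by_contra h6
        apply hv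
        rw [max_eq_left (by omega), mul_zero]
    rw [h5] at h3
    exact_mod_cast h3

/-- the automorphism of the Hahn series, composed with a homomorphism -/
theorem twist (hCHR : T_CHR) {u : K} {e : ℕ} (he : 0 < e) {ζ : k} (hζ : ζ ^ e = 1)
    (φ : K →ₐ[k] HS k) (hφ : φ u = uu k) :
    ∃ ψ : K →ₐ[k] HS k, ψ u = uu k ∧
      ∀ z, (∀ (m : ℤ) (r : ℚ), r * e = m → cf (ψ z) r = ζ ^ m * cf (φ z) r) ∧
        ∀ r : ℚ, cf (φ z) r = 0 → cf (ψ z) r = 0 := by
  obtain ⟨σ, χ, h1, h2⟩ := hCHR k e ζ he hζ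
  have hc : ∀ c : k, σ (algebraMap k (HS k) c) = algebraMap k (HS k) c := by
    intro c
    refine hs_ext fun r => ?_
    rw [h1, algebraMap_HS, cf_sg]
    split_ifs with h
    · have h3 := h2 0 r (by rw [h]; simp)
      rw [h3]
      simp
    · simp
  refine ⟨{ toRingHom := σ.comp φ.toRingHom, commutes' := fun c => ?_ }, ?_, fun z => ⟨?_, ?_⟩⟩
  · change σ (φ (algebraMap k K c)) = _
    rw [φ.commutes, hc]
  · change σ (φ u) = uu k
    rw [hφ]
    refine hs_ext fun r => ?_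
    rw [h1]
    unfold Pool.Agent.H92.OD.uu
    rw [cf_sg]
    split_ifs with h
    · have h3 := h2 e r (by rw [h]; simp)
      rw [h3]
      simp [hζ]
    · simp
  · intro m r hr
    change cf (σ (φ z)) r = _
    rw [h1, h2 m r hr]
  · intro r hr
    change cf (σ (φ z)) r = 0
    rw [h1, hr, mul_zero]

omit [IsAlgClosed k] [CharZero k] in
/-- power sums of roots of unity -/
theorem root_sum {e : ℕ} (he : 0 < e) {ζ : k} (hζ : IsPrimitiveRoot ζ e) (m : ℤ) :
    ∑ j : Fin e, (ζ ^ (j : ℕ)) ^ m = if (e : ℤ) ∣ m then (e : k) else 0 := by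
  have hζ0 : ζ ≠ 0 := hζ.ne_zero he.ne'
  have h1 : ∀ j : ℕ, (ζ ^ j) ^ m = (ζ ^ m) ^ j := by
    intro j
    rw [← zpow_natCast, ← zpow_natCast, ← zpow_mul, ← zpow_mul, mul_comm]
  simp only [h1]
  rw [Fin.sum_univ_eq_sum_range (fun j => (ζ ^ m) ^ j) e]
  split_ifs with h
  · have h2 : ζ ^ m = 1 := (hζ.zpow_eq_one_iff_dvd m).2 h
    simp [h2]
  · have h2 : ζ ^ m ≠ 1 := fun h3 => h ((hζ.zpow_eq_one_iff_dvd m).1 h3)
    rw [geom_sum_eq h2, ← zpow_natCast, ← zpow_mul, mul_comm, zpow_mul, zpow_natCast,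
      hζ.pow_eq_one, one_zpow, sub_self, zero_div]

end

theorem pf_EMB (hCHR : T_CHR) : T_EMB := by
  intro k K _ _ _ _ _ _ htr D hD u F hu hF
  classical
  obtain ⟨V, hV, hVn⟩ := zeros htr hu
  have hfd := Pool.Agent.H36.SC.fin_of_transc htr hu
  have hag := fun (f g : K →ₐ[k] HS k) (h : f u = g u) => agree f g h
  rw [← hF] at hVn hfd hag
  have hn0 : 0 < Module.finrank F K := Module.finrank_pos
  have hDu : D u ≠ 0 := by
    intro h
    obtain ⟨c, hc⟩ := ker k K htr D hD _ h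
    rw [← hc] at hu
    exact hu (isAlgebraic_algebraMap c)
  -- the homomorphisms
  have hB : ∀ v : DV k K, 0 < v.ord u → ∃ φ : K →ₐ[k] HS k, φ u = uu k ∧
      (∀ z, Lat (v.ord u).toNat (φ z)) ∧
      ∀ z, z ≠ 0 → IsO (φ z) ((v.ord z : ℚ) / (v.ord u : ℚ)) := by
    intro v hv
    have h1 : v.ord u = ((v.ord u).toNat : ℤ) := by omega
    obtain ⟨φ, h2, h3, h4, -⟩ := Pool.Agent.H21.SM.pf_BRX Pool.Agent.H3.OD.brg k K htr v u
      (v.ord u).toNat (by omega) h1 ((u / D u) • D) (by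
        rw [Derivation.smul_apply, smul_eq_mul, div_mul_cancel₀ _ hDu])
    refine ⟨φ, h2, h3, fun z hz => ?_⟩
    have h5 := h4 z hz
    have h6 : ((v.ord u : ℤ) : ℚ) = ((v.ord u).toNat : ℚ) := by
      exact_mod_cast congrArg (fun x : ℤ => (x : ℚ)) h1
    rw [h6]
    exact h5
  obtain ⟨v₀, hv₀⟩ : ∃ v₀, v₀ ∈ V := by
    by_contra h
    push Not at h
    rw [Finset.eq_empty_of_forall_notMem h, Finset.sum_empty] at hVn
    omega
  obtain ⟨φ₀, hφ₀, -⟩ := hB v₀ ((hV v₀).1 hv₀)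
  have hex : ∀ v : DV k K, ∃ φ : K →ₐ[k] HS k, φ u = uu k ∧ (0 < v.ord u →
      (∀ z, Lat (v.ord u).toNat (φ z)) ∧
      ∀ z, z ≠ 0 → IsO (φ z) ((v.ord z : ℚ) / (v.ord u : ℚ))) := by
    intro v
    by_cases h : 0 < v.ord u
    · obtain ⟨φ, h1, h2⟩ := hB v h
      exact ⟨φ, h1, fun _ => h2⟩
    · exact ⟨φ₀, hφ₀, fun h' => absurd h' h⟩
  choose φ hφu hφ using hex
  refine ⟨φ, fun v hv => ⟨hφu v, hφ v hv⟩, ?_⟩
  -- roots of unity
  have hpos : ∀ v : V, 0 < (v.1.ord u).toNat := by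
    intro v
    have h1 := (hV v.1).1 v.2
    omega
  have hrt : ∀ v : V, ∃ ζ : k, IsPrimitiveRoot ζ (v.1.ord u).toNat := by
    intro v
    have h1 : NeZero (((v.1.ord u).toNat : ℕ) : k) := ⟨by
      have := hpos v
      exact_mod_cast this.ne'⟩
    exact HasEnoughRootsOfUnity.exists_primitiveRoot k _
  choose ζ hζ using hrt
  have htw : ∀ i : (v : V) × Fin (v.1.ord u).toNat, ∃ ψ : K →ₐ[k] HS k, ψ u = uu k ∧
      ∀ z, (∀ (m : ℤ) (r : ℚ), r * (i.1.1.ord u).toNat = m →
        cf (ψ z) r = (ζ i.1 ^ (i.2 : ℕ)) ^ m * cf (φ i.1.1 z) r) ∧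
        ∀ r : ℚ, cf (φ i.1.1 z) r = 0 → cf (ψ z) r = 0 := by
    intro i
    refine twist hCHR (hpos i.1) ?_ (φ i.1.1) (hφu _)
    rw [← pow_mul, mul_comm, pow_mul, (hζ i.1).pow_eq_one, one_pow]
  choose ψ hψu hψ using htw
  have hφi := fun v : V => hφ v.1 ((hV v.1).1 v.2)
  -- the orders
  have hord : ∀ (i : (v : V) × Fin (v.1.ord u).toNat) (z : K), z ≠ 0 →
      IsO (ψ i z) ((i.1.1.ord z : ℚ) / (i.1.1.ord u : ℚ)) := by
    intro i z hz
    have h1 := (hφi i.1).2 z hz
    have h2 := (hV i.1.1).1 i.1.2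
    have h3 : ((i.1.1.ord u : ℤ) : ℚ) = ((i.1.1.ord u).toNat : ℚ) := by
      have h4 : i.1.1.ord u = ((i.1.1.ord u).toNat : ℤ) := by omega
      exact_mod_cast congrArg (fun x : ℤ => (x : ℚ)) h4
    have h5 : ((i.1.1.ord u : ℤ) : ℚ) ≠ 0 := by exact_mod_cast h2.ne'
    refine ⟨?_, fun s hs => (hψ i z).2 s (h1.2 s hs)⟩
    rw [(hψ i z).1 (i.1.1.ord z) _ (by rw [← h3, div_mul_cancel₀ _ h5])]
    refine mul_ne_zero (zpow_ne_zero _ (pow_ne_zero _ ((hζ i.1).ne_zero (hpos i.1).ne'))) h1.1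
  -- distinct
  have hinj : Function.Injective ψ := by
    rintro ⟨v, j⟩ ⟨w, i⟩ h
    have h1 : ∀ z : K, z ≠ 0 → v.1.ord z * w.1.ord u = w.1.ord z * v.1.ord u := by
      intro z hz
      have h2 := hord ⟨v, j⟩ z hz
      have h3 := hord ⟨w, i⟩ z hz
      rw [h] at h2
      have h4 := h2.unique h3
      have h5 : ((v.1.ord u : ℤ) : ℚ) ≠ 0 := by exact_mod_cast ((hV v.1).1 v.2).ne'
      have h6 : ((w.1.ord u : ℤ) : ℚ) ≠ 0 := by exact_mod_cast ((hV w.1).1 w.2).ne'
      rw [div_eq_div_iff h5 h6] at h4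
      exact_mod_cast h4
    have hvp := (hV v.1).1 v.2
    have hwp := (hV w.1).1 w.2
    obtain ⟨x, hx0, hx1⟩ := v.1.ord_surj
    obtain ⟨y, hy0, hy1⟩ := w.1.ord_surj
    have h2 := h1 x hx0
    have h3 := h1 y hy0
    rw [hx1, one_mul] at h2
    rw [hy1, one_mul] at h3
    have h4 : v.1.ord u = w.1.ord u := by
      have h5 : v.1.ord u ∣ w.1.ord u := ⟨w.1.ord x, by rw [h2]; ring⟩
      have h6 : w.1.ord u ∣ v.1.ord u := ⟨v.1.ord y, by rw [← h3]; ring⟩
      exact Int.dvd_antisymm hvp.le hwp.le h5 h6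
    have h5 : v = w := by
      apply Subtype.ext
      apply DV.ext
      funext z
      by_cases hz : z = 0
      · rw [hz, v.1.ord_zero, w.1.ord_zero]
      · have h6 := h1 z hz
        rw [h4] at h6
        exact mul_right_cancel₀ hwp.ne' h6
    subst h5
    have h6 := (hφi v).2 x hx0
    have h7 : ((v.1.ord u : ℤ) : ℚ) = ((v.1.ord u).toNat : ℚ) := by
      have h8 : v.1.ord u = ((v.1.ord u).toNat : ℤ) := by omega
      exact_mod_cast congrArg (fun x : ℤ => (x : ℚ)) h8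
    have h8 : ((v.1.ord u : ℤ) : ℚ) ≠ 0 := by exact_mod_cast hvp.ne'
    have h9 : ((v.1.ord x : ℚ) / (v.1.ord u : ℚ)) * (v.1.ord u).toNat = ((1 : ℤ) : ℚ) := by
      rw [hx1, ← h7, div_mul_cancel₀ _ h8]
    have h10 := (hψ ⟨v, j⟩ x).1 1 _ h9
    have h11 := (hψ ⟨v, i⟩ x).1 1 _ h9
    rw [h, h11] at h10
    have h12 := mul_right_cancel₀ h6.1 h10
    simp only [zpow_one] at h12
    have h13 : (i : ℕ) = j := (hζ v).pow_inj i.2 j.2 h12
    rw [Fin.ext h13]
  -- the algebra structure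
  let _ : Algebra F (HS k) := (φ₀.toRingHom.comp (algebraMap F K)).toAlgebra
  have hres : ∀ (f : K →ₐ[k] HS k), f u = uu k → ∀ x : F, f (algebraMap F K x) =
      algebraMap F (HS k) x := by
    intro f hf x
    have h1 := hag f φ₀ (by rw [hf, hφ₀]) (algebraMap F K x) x.2
    rw [h1]
    rfl
  have hcz : CharZero F := charZero_of_injective_algebraMap (algebraMap k F).injective
  have hsep : Algebra.IsSeparable F K := inferInstance
  let Ψ : ((v : V) × Fin (v.1.ord u).toNat) → (K →ₐ[F] AlgebraicClosure (HS k)) := fun i =>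
    (IsScalarTower.toAlgHom F (HS k) (AlgebraicClosure (HS k))).comp
      { toRingHom := (ψ i).toRingHom, commutes' := hres (ψ i) (hψu i) }
  have hΨ : ∀ i z, Ψ i z = algebraMap (HS k) (AlgebraicClosure (HS k)) (ψ i z) := fun i z => rfl
  have hΨinj : Function.Injective Ψ := by
    intro i j h
    apply hinj
    ext z
    have h1 := congrArg (fun f => f z) h
    simp only [hΨ] at h1
    exact (algebraMap (HS k) (AlgebraicClosure (HS k))).injective h1
  have hcard : Fintype.card ((v : V) × Fin (v.1.ord u).toNat) =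
      Fintype.card (K →ₐ[F] AlgebraicClosure (HS k)) := by
    rw [AlgHom.card F K (AlgebraicClosure (HS k)), ← hVn, Fintype.card_sigma]
    simp only [Fintype.card_fin]
    exact Finset.sum_coe_sort V (fun v => (v.ord u).toNat)
  have hbij : Function.Bijective Ψ :=
    (Fintype.bijective_iff_injective_and_card Ψ).2 ⟨hΨinj, hcard⟩
  have htrace : ∀ z : K, algebraMap F (HS k) (Algebra.trace F K z) = ∑ i, ψ i z := by
    intro z
    apply (algebraMap (HS k) (AlgebraicClosure (HS k))).injective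
    rw [← IsScalarTower.algebraMap_apply F (HS k) (AlgebraicClosure (HS k)),
      trace_eq_sum_embeddings (AlgebraicClosure (HS k)), map_sum]
    exact (Function.Bijective.sum_comp hbij (fun σ : K →ₐ[F] AlgebraicClosure (HS k) => σ z)).symm
  -- the coefficients
  have hcoef : ∀ (z : K) (r : ℚ), cf (∑ i, ψ i z) r = ∑ v : V, ∑ j : Fin (v.1.ord u).toNat,
      cf (ψ ⟨v, j⟩ z) r := by
    intro z r
    rw [cf_sum, Fintype.sum_sigma]
  have hinner : ∀ (z : K) (r : ℚ) (v : V), ((∃ m : ℤ, r = (m : ℚ)) →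
      ∑ j : Fin (v.1.ord u).toNat, cf (ψ ⟨v, j⟩ z) r =
        ((v.1.ord u).toNat : k) * cf (φ v.1 z) r) ∧ ((¬∃ m : ℤ, r = (m : ℚ)) →
      ∑ j : Fin (v.1.ord u).toNat, cf (ψ ⟨v, j⟩ z) r = 0) := by
    intro z r v
    have hne : (((v.1.ord u).toNat : ℕ) : ℚ) ≠ 0 := by exact_mod_cast (hpos v).ne'
    constructor
    · rintro ⟨m, rfl⟩
      have h1 : ((m : ℤ) : ℚ) * ((v.1.ord u).toNat : ℕ) =
          ((m * ((v.1.ord u).toNat : ℤ) : ℤ) : ℚ) := by push_cast; rfl
      have h2 : ∀ j : Fin (v.1.ord u).toNat, cf (ψ ⟨v, j⟩ z) (m : ℚ) =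
          (ζ v ^ (j : ℕ)) ^ (m * ((v.1.ord u).toNat : ℤ)) * cf (φ v.1 z) (m : ℚ) :=
        fun j => (hψ ⟨v, j⟩ z).1 _ _ h1
      simp only [h2]
      rw [← Finset.sum_mul, root_sum (hpos v) (hζ v), if_pos (Dvd.intro_left _ rfl)]
    · intro hr
      by_cases h0 : cf (φ v.1 z) r = 0
      · exact Finset.sum_eq_zero fun j _ => (hψ ⟨v, j⟩ z).2 r h0
      · obtain ⟨m, hm⟩ := (hφi v).1 z r h0
        have h2 : ∀ j : Fin (v.1.ord u).toNat, cf (ψ ⟨v, j⟩ z) r =
            (ζ v ^ (j : ℕ)) ^ m * cf (φ v.1 z) r := fun j => (hψ ⟨v, j⟩ z).1 _ _ hm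
        simp only [h2]
        rw [← Finset.sum_mul, root_sum (hpos v) (hζ v), if_neg, zero_mul]
        rintro ⟨q, rfl⟩
        apply hr
        refine ⟨q, ?_⟩
        push_cast at hm
        rw [mul_comm] at hm
        exact mul_left_cancel₀ hne hm
  intro z v hv
  have h1 : φ v (tr F z) = ∑ i, ψ i z := by
    unfold tr
    rw [hres (φ v) (hφu v), htrace]
  rw [h1]
  constructor
  · intro m
    rw [hcoef, Finset.sum_congr rfl fun w _ => (hinner z m w).1 ⟨m, rfl⟩,
      Finset.sum_coe_sort V (fun w => (((w.ord u).toNat : ℕ) : k) * cf (φ w z) (m : ℚ)),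
      finsum_eq_sum_of_support_subset (s := V)]
    · refine Finset.sum_congr rfl fun w hw => ?_
      have h2 := (hV w).1 hw
      have h3 : max 0 (w.ord u) = ((w.ord u).toNat : ℤ) := by omega
      rw [h3, Int.cast_natCast]
    · intro w hw
      rw [Function.mem_support] at hw
      rw [Finset.mem_coe, hV]
      by_contra h4
      apply hw
      rw [max_eq_left (by omega), Int.cast_zero, zero_mul]
  · intro r hr
    rw [hcoef]
    exact Finset.sum_eq_zero fun w _ => (hinner z r w).2 hr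

end Pool.Agent.H85.SL
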